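import Pool.Agent.Y437.TL.Nilp
import Pool.Agent.Y437.TL.Roots

set_option autoImplicit false

/-!
For every `n ≥ 2` there are a finitely generated parafree group `P` and a normal subgroup `N` with
`P / N` infinite cyclic and `N / [N, N]` torsion-free, and elements `x, y` of `P / [N, N]` such
that `x ^ j = y ^ j` exactly for the multiples `j` of `n`. So roots are not unique for any exponent
`n ≥ 2`, already when `P / N` is infinite cyclic.

For odd `n = 2 m + 1` the group is `P = ⟨s, t, z, u | s t s⁻¹ t⁻¹ = (u z z)^m u (z u z)^(-m)⟩` and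
`x = z ^ 2`, `y = u z ^ 2`; for even `n = 2 c` it is
`P = ⟨s, t, z, u | s t s⁻¹ t⁻¹ = u w w u (w u w)⁻¹⟩`, `w = z ^ c`, and `x = z ^ 3`, `y = u z ^ 3`. In
both cases `N` is the normal closure of `s, t, u`.
-/

namespace Pool.Agent.Results.MP_66ce2c_al.EveryExponent

open Pool.Agent.Y437.TL
open scoped commutatorElement

/-- A group `P` is parafree if its lower central series has trivial intersection and there is a
free group with the same lower central quotients. In Mathlib `(⊤ : Subgroup P).lowerCentralSeries n`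
is the term usually called the `(n+1)`-st term of the lower central series. -/
def IsParafree (P : Type) [Group P] : Prop :=
  (⨅ n : ℕ, (⊤ : Subgroup P).lowerCentralSeries n) = ⊥ ∧
    ∃ α : Type, ∀ n : ℕ, Nonempty
      ((P ⧸ (⊤ : Subgroup P).lowerCentralSeries n) ≃*
        (FreeGroup α ⧸ (⊤ : Subgroup (FreeGroup α)).lowerCentralSeries n))

/-- **Theorem.** For every `n ≥ 2` there are a finitely generated parafree group `P` and a normal
subgroup `N` with `N / [N, N]` torsion-free and `P / N` infinite cyclic, and two elements of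
`P / [N, N]` whose `j`-th powers agree if and only if `n` divides `j`. -/
theorem result (n : ℕ) (hn : 2 ≤ n) :
    ∃ (P : Type) (_ : Group P) (N : Subgroup P) (_ : N.Normal),
      IsParafree P ∧ Group.FG P ∧
      (∀ x : N ⧸ commutator N, IsOfFinOrder x → x = 1) ∧
      Nonempty (P ⧸ N ≃* Multiplicative ℤ) ∧
      ∃ x y : P ⧸ ⁅N, N⁆, ∀ j : ℕ, x ^ j = y ^ j ↔ n ∣ j := by
  rcases Nat.even_or_odd' n with ⟨m, hm | hm⟩
  · obtain ⟨c, rfl⟩ : ∃ c, m = c + 1 := ⟨m - 1, by omega⟩
    let _ : Mm := ⟨0, c⟩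
    refine ⟨P, inferInstance, Cyc.pr.ker, inferInstance,
      ⟨P_resNil, Fin 3, fun n => ⟨quotEquiv n⟩⟩, P_fg, Cyc.ker_torsionFree,
      ⟨QuotientGroup.quotientKerEquivOfSurjective Cyc.pr Cyc.pr_surj⟩,
      QuotientGroup.mk (pz ^ 3), QuotientGroup.mk (pu * pz ^ 3), fun j => ?_⟩
    rw [hm]
    exact Cyc.even_iff rfl j
  · obtain ⟨c, rfl⟩ : ∃ c, m = c + 1 := ⟨m - 1, by omega⟩
    let _ : Mm := ⟨c, 0⟩
    refine ⟨P, inferInstance, Cyc.pr.ker, inferInstance,
      ⟨P_resNil, Fin 3, fun n => ⟨quotEquiv n⟩⟩, P_fg, Cyc.ker_torsionFree,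
      ⟨QuotientGroup.quotientKerEquivOfSurjective Cyc.pr Cyc.pr_surj⟩,
      QuotientGroup.mk (pz ^ 2), QuotientGroup.mk (pu * pz ^ 2), fun j => ?_⟩
    have h : n = 2 * c + 3 := by omega
    rw [h]
    exact Cyc.odd_iff rfl j

end Pool.Agent.Results.MP_66ce2c_al.EveryExponent
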