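import Pool.Agent.Y437.TK.Nilp
import Pool.Agent.Y437.TK.Tors

set_option autoImplicit false

/-!
For every odd `k ≥ 3` there are a finitely generated parafree group `P` and a normal subgroup `N`
such that `P / N` is the dihedral group of order `2 k`, the abelianization `N / [N, N]` is
torsion-free, and `P / [N, N]` has an element of order exactly `k`. So elements of every odd order
occur in the quotients `P / [N, N]` of Q1.

The group is `P = ⟨s, t, z, u | s t s⁻¹ t⁻¹ = (u z z)^m u (z u z)^(-m)⟩`, `k = 2 m + 1`. With
`σ = u z` the right-hand side is trivial exactly when the two alternating products of `σ` and `z`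
with `k` factors agree, which is the relation of the Artin group of the dihedral group.
-/

namespace Pool.Agent.Results.MP_66ce2c_al.EveryOddOrder

open Pool.Agent.Y437.TK
open scoped commutatorElement

/-- A group `P` is parafree if its lower central series has trivial intersection and there is a
free group with the same lower central quotients. In Mathlib `(⊤ : Subgroup P).lowerCentralSeries n`
is the term usually called the `(n+1)`-st term of the lower central series. -/
def IsParafree (P : Type) [Group P] : Prop :=
  (⨅ n : ℕ, (⊤ : Subgroup P).lowerCentralSeries n) = ⊥ ∧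
    ∃ α : Type, ∀ n : ℕ, Nonempty
      ((P ⧸ (⊤ : Subgroup P).lowerCentralSeries n) ≃*
        (FreeGroup α ⧸ (⊤ : Subgroup (FreeGroup α)).lowerCentralSeries n))

/-- **Theorem.** For every odd `k ≥ 3` there are a finitely generated parafree group `P` and a
normal subgroup `N` with `N / [N, N]` torsion-free and `P / N` dihedral of order `2 k` such that
`P / [N, N]` has an element of order `k`. -/
theorem result (k : ℕ) (hk : Odd k) (h3 : 3 ≤ k) :
    ∃ (P : Type) (_ : Group P) (N : Subgroup P) (_ : N.Normal),
      IsParafree P ∧ Group.FG P ∧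
      (∀ x : N ⧸ commutator N, IsOfFinOrder x → x = 1) ∧
      Nonempty (P ⧸ N ≃* DihedralGroup k) ∧
      ∃ y : P ⧸ ⁅N, N⁆, orderOf y = k := by
  obtain ⟨m, hm⟩ := hk
  obtain ⟨n, rfl⟩ : ∃ n, m = n + 1 := ⟨m - 1, by omega⟩
  have hk' : k = 2 * n + 3 := by omega
  subst hk'
  letI : Mm := ⟨n⟩
  exact ⟨P, inferInstance, Tors.pi3.ker, inferInstance,
    ⟨P_resNil, Fin 3, fun n => ⟨quotEquiv n⟩⟩, P_fg, Tors.ker_torsionFree,
    ⟨QuotientGroup.quotientKerEquivOfSurjective Tors.pi3 Tors.pi3_surj⟩,
    QuotientGroup.mk pu, Tors.order_u⟩

end Pool.Agent.Results.MP_66ce2c_al.EveryOddOrder
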